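import Pool.Agent.K1H5.PP.Stm

/-!
Sums over cosets (pieces VK, VN of the project PP, MP_79a731_al).
-/

set_option autoImplicit false

namespace Pool.Agent.K1H46.PP

open MonoidAlgebra Pool.Agent.K1H5.PP

universe u

theorem mapDomain_val {α β : Type*} [DecidableEq β] (f : α → β) (v : α →₀ ℤ) (b : β) :
    Finsupp.mapDomain f v b = ∑ a ∈ v.support.filter (fun a => f a = b), v a := by
  classical
  rw [Finsupp.mapDomain, Finsupp.sum_apply, Finsupp.sum, Finset.sum_filter]
  refine Finset.sum_congr rfl fun a _ => ?_
  rw [Finsupp.single_apply]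

section

variable {G : Type u} [Group G] (K : Subgroup G)

/-- the right cosets -/
abbrev Cos : Type u := Quotient (QuotientGroup.rightRel K)

/-- the coset of an element -/
def cl (g : G) : Cos K := Quotient.mk _ g

theorem cl_eq (g h : G) : cl K h = cl K g ↔ h * g⁻¹ ∈ K := by
  unfold cl
  rw [eq_comm, Quotient.eq, QuotientGroup.rightRel_apply]

/-- the sums over the right cosets -/
noncomputable def Phi : MonoidAlgebra ℤ G →+ (Cos K →₀ ℤ) where
  toFun a := Finsupp.mapDomain (cl K) a.coeff
  map_zero' := by
    rw [coeff_zero, Finsupp.mapDomain_zero]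
  map_add' a b := by
    rw [coeff_add, Finsupp.mapDomain_add]

theorem Phi_single (g : G) (c : ℤ) : Phi K (single g c) = Finsupp.single (cl K g) c := by
  change Finsupp.mapDomain (cl K) (single g c : MonoidAlgebra ℤ G).coeff = _
  rw [coeff_single, Finsupp.mapDomain_single]

theorem van_iff (a : MonoidAlgebra ℤ G) : Van K a ↔ Phi K a = 0 := by
  classical
  have key : ∀ g : G, Phi K a (cl K g) =
      ∑ h ∈ a.coeff.support.filter (fun h => h * g⁻¹ ∈ K), a.coeff h := by
    intro g
    change Finsupp.mapDomain (cl K) a.coeff (cl K g) = _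
    rw [mapDomain_val]
    refine Finset.sum_congr ?_ fun _ _ => rfl
    ext h
    simp only [Finset.mem_filter, cl_eq]
  constructor
  · intro h
    ext q
    obtain ⟨g, rfl⟩ := Quotient.exists_rep q
    have h1 := h g
    change Phi K a (cl K g) = 0
    rw [key g]
    convert h1
  · intro h g
    have h1 := key g
    rw [h] at h1
    have h2 : ((0 : Cos K →₀ ℤ) (cl K g)) = 0 := rfl
    rw [h2] at h1
    convert h1.symm

/-- a section of `Phi` -/
noncomputable def Psi : (Cos K →₀ ℤ) →+ MonoidAlgebra ℤ G :=
  Finsupp.liftAddHom fun q => singleAddHom (R := ℤ) q.out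

theorem Psi_single (q : Cos K) (c : ℤ) : Psi K (Finsupp.single q c) = single q.out c := by
  unfold Psi
  rw [Finsupp.liftAddHom_apply_single]
  rfl

/-- left multiplication by a group element -/
noncomputable def lm (k : G) : MonoidAlgebra ℤ G →+ MonoidAlgebra ℤ G :=
  AddMonoidHom.mulLeft (single k (1 : ℤ))

theorem Phi_lm (k : G) (hk : k ∈ K) (z : MonoidAlgebra ℤ G) :
    Phi K ((single k (1 : ℤ) : MonoidAlgebra ℤ G) * z) = Phi K z := by
  have h : (Phi K).comp (lm k) = Phi K := by
    apply addMonoidHom_ext
    intro g c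
    change Phi K ((single k (1 : ℤ) : MonoidAlgebra ℤ G) * single g c) = Phi K (single g c)
    rw [single_mul_single, one_mul, Phi_single, Phi_single]
    congr 1
    rw [cl_eq, mul_inv_cancel_right]
    exact hk
  exact DFunLike.congr_fun h z

end

theorem t_VK : S_VK.{u} := by
  intro G _ K a
  rw [van_iff]
  set C := AddSubgroup.closure
    {y : MonoidAlgebra ℤ G | ∃ k ∈ K, ∃ z : MonoidAlgebra ℤ G,
      y = (single k (1 : ℤ) : MonoidAlgebra ℤ G) * z - z} with hC
  constructor
  · intro h
    let π := QuotientAddGroup.mk' C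
    have hπ : ∀ x, π x = 0 ↔ x ∈ C := fun x => QuotientAddGroup.eq_zero_iff x
    have h1 : π.comp ((Psi K).comp (Phi K)) = π := by
      apply addMonoidHom_ext
      intro g c
      change π (Psi K (Phi K (single g c))) = π (single g c)
      rw [Phi_single, Psi_single, ← sub_eq_zero, ← map_sub, hπ, ← neg_mem_iff, neg_sub]
      have h2 : (cl K g).out * g⁻¹ ∈ K := by
        rw [← cl_eq]
        exact Quotient.out_eq (cl K g)
      have h3 : g * ((cl K g).out)⁻¹ ∈ K := by
        have := K.inv_mem h2
        rwa [mul_inv_rev, inv_inv] at this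
      refine AddSubgroup.subset_closure ⟨_, h3, single ((cl K g).out) c, ?_⟩
      rw [single_mul_single, one_mul, inv_mul_cancel_right]
    rw [← hπ, ← h1]
    change π (Psi K (Phi K a)) = 0
    rw [h, map_zero, map_zero]
  · intro h
    have h1 : C ≤ (Phi K).ker := by
      rw [hC, AddSubgroup.closure_le]
      rintro _ ⟨k, hk, z, rfl⟩
      change Phi K _ = 0
      rw [map_sub, Phi_lm K k hk, sub_self]
    exact h1 h

theorem t_VN : S_VN.{u} := by
  classical
  intro G _ K hK a
  have key : ∀ g : G, (mapDomainRingHom ℤ (QuotientGroup.mk' K) a).coeff (QuotientGroup.mk' K g) =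
      ∑ h ∈ a.coeff.support.filter (fun h => h * g⁻¹ ∈ K), a.coeff h := by
    intro g
    have h1 : (mapDomainRingHom ℤ (QuotientGroup.mk' K) a).coeff =
        Finsupp.mapDomain (QuotientGroup.mk' K) a.coeff := by
      rfl
    rw [h1, mapDomain_val]
    refine Finset.sum_congr ?_ fun _ _ => rfl
    ext h
    simp only [Finset.mem_filter]
    refine and_congr_right fun _ => ?_
    rw [QuotientGroup.mk'_apply, QuotientGroup.mk'_apply, eq_comm, QuotientGroup.eq,
      hK.mem_comm_iff]
  constructor
  · intro h
    apply MonoidAlgebra.ext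
    ext q
    obtain ⟨g, rfl⟩ := QuotientGroup.mk'_surjective K q
    rw [key g]
    have h1 := h g
    change _ = (0 : ℤ)
    convert h1
  · intro h g
    have h1 := key g
    rw [h] at h1
    have h2 : (0 : MonoidAlgebra ℤ (G ⧸ K)).coeff (QuotientGroup.mk' K g) = 0 := rfl
    rw [h2] at h1
    convert h1.symm

end Pool.Agent.K1H46.PP
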